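import Pool.Agent.Helper56.HodgeUniv.Main

/-!
# Hodge classes, absolute Hodge classes, and representations of finite groups

Fix a dimension `n`, a codimension `r` and a complex variety `Y` of dimension `n`. If there is, on
some variety of dimension `n`, a Hodge class of codimension `r` which is not absolute Hodge, then
**every** finite-dimensional rational representation of **every** finite group `Δ` is a
subrepresentation of the Hodge classes in `H^{2r}(X)` which meets the absolute Hodge classes in zero,
for a variety `X` of dimension `n` with an action of `Δ` and a `Δ`-invariant generically finite
morphism to `Y`. So all Hodge classes (of dimension `n` and codimension `r`) are absolute Hodge if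
one single such representation is omitted: for instance, if the codimension of the absolute Hodge
classes in the Hodge classes is bounded on the varieties of dimension `n`; or if all Hodge classes
on which an involution acts as `-1` are absolute Hodge on the varieties which are generically finite
over the projective space `Y`, with an involution over `Y`.

Proof: let `t` be a Hodge class on `S` which is not absolute Hodge, `E` the representation, `M` its
dimension. Let `X` be a `Δ`-invariant complete intersection of dimension `n` in `S^{M × Δ} × Y`,
`p m d : X ⟶ S` the projections. The maps `(p m d)_* (p m' d')^*` are multiplications with a number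
`κ ≠ 0` if the indices are equal, and otherwise their values are algebraic classes, hence
absolute Hodge. If `λ_m` are the coordinates on `E`, then `e ↦ ∑ λ_m (d e) (p m d)^* t` is
equivariant, and `e` is determined by the terms with `d = 1`.
-/

open CategoryTheory AlgebraicGeometry

universe u v w x

namespace Pool.Agent.Results.MP_4e1cf2_ag.OmittedRepresentation

open Pool.Agent.H914 VarClass Obj WeilCohomology Pool.Agent.V11106.SH
  Pool.Agent.Helper56.HodgeUniv

variable {k : Type u} [Field k] {𝒱 : VarClass k} {ops : CycleOps 𝒱}

theorem result {I : Type w} (W : I → WeilCohomology.{u, v} ops) (Φ : HodgeFamily.{u, v, w, x} W)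
    (s : I) (n r : ℕ) (hP : HasInvariantIntersections (W s) n) (Y : 𝒱.Obj) (hY : Y.dim = n) :
    HodgeIsAbsolute Φ s n r ↔
      OmitsAbove (W s) (fun X => Φ.hdg s X r) (fun X => absHodge Φ s X r) Y n :=
  pair_iff (pair_hodge Φ s r) hP hY

end Pool.Agent.Results.MP_4e1cf2_ag.OmittedRepresentation
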